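import Pool.Agent.H87.ExD2

namespace Pool.Agent.Results.MP_0f3a14_an.Counter

open Pool.Agent.H87 in
/-- An extreme `Δ`-point of a real Banach space that is neither a ccs `Δ`-point nor a super
`Δ`-point. -/
theorem result : ∃ (X : Type) (_ : NormedAddCommGroup X) (_ : NormedSpace ℝ X) (x : X),
    CompleteSpace X ∧ ‖x‖ = 1 ∧ x ∈ (Metric.closedBall (0 : X) 1).extremePoints ℝ ∧
    ExD.Delta x ∧ ¬ CcsD.CcsDelta ℝ x ∧ ¬ CcsD.SuperDelta ℝ x :=
  ⟨ExD.Z, inferInstance, inferInstance, ExD.eZ ExD.x, inferInstance, ExD.x_norm, ExD.extreme,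
    ExD.delta, fun h => ExD.notSuper (CcsD.main ExD.x_norm h), ExD.notSuper⟩

end Pool.Agent.Results.MP_0f3a14_an.Counter
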